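import Pool.Agent.H914R2.KunC

open Pool.Agent.H914 Finset

universe u v

/-- Let `X` be a smooth proper variety of dimension `n` over an algebraically closed field, and
`W₀` a Weil cohomology theory for which the weight operator of `X` (acting as `i - n` on `H^i(X)`)
is a sum of commutators of homogeneous algebraic correspondences (for instance because the
Lefschetz standard conjecture holds for `X` and `W₀`). Then there are cycles `P i` on `X × X` with
rational coefficients such that, for every Weil cohomology theory `W` compatible with the same
operations on cycles, the following are equivalent: for all `i`, the class of `P i` is the `i`-th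
Kunneth projector for `W`; the Betti numbers of `X` for `W` and `W₀` agree; the two sums `∑ b_i`
and `∑ (i - n)^2 b_i` for `W` are at most the same sums for `W₀`. Moreover they hold if the weight
operator for `W` is a sum of commutators as well. -/
theorem Pool.Agent.Results.MP_a60482_ag.IndepKunneth.result {k : Type u} [Field k]
    [IsAlgClosed k] {𝒱 : VarClass k} {ops : CycleOps 𝒱} (X : 𝒱.Obj)
    (W₀ : WeilCohomology.{u, v} ops) (h₀ : WeightIsCommutatorSum W₀ X) :
    ∃ P : ℕ → (X.prod X).Cycles, (∀ i, (X.prod X).IsCyc X.dim (P i)) ∧
      ∀ W : WeilCohomology.{u, v} ops,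
        List.TFAE [
          ∀ i ≤ 2 * X.dim, InducesProjector W X i (P i),
          ∀ i, bettiNumber W X i = bettiNumber W₀ X i,
          ∑ i ∈ range (2 * X.dim + 1), bettiNumber W X i ≤
              ∑ i ∈ range (2 * X.dim + 1), bettiNumber W₀ X i ∧
            ∑ i ∈ range (2 * X.dim + 1), ((i : ℤ) - X.dim) ^ 2 * bettiNumber W X i ≤
              ∑ i ∈ range (2 * X.dim + 1), ((i : ℤ) - X.dim) ^ 2 * bettiNumber W₀ X i] ∧
        (WeightIsCommutatorSum W X → ∀ i, bettiNumber W X i = bettiNumber W₀ X i) :=
  kunneth_indep W₀ h₀
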